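import Mathlib

/-! `p`-regular elementary symmetric partitions: `r_{p,1}(n) - r_{p,2}(n)`. -/

namespace Pool.Agent.Results.MP_e3b57e_co.RegularCount

open Finset

/-- the multiset of the products of the `k`-element sub-multisets of `s`
(all `binom ℓ k` products over index sets) -/
def e (k : ℕ) (s : Multiset ℕ) : Multiset ℕ := (s.powersetCard k).map Multiset.prod

/-- `IP k n`: the set of the elementary symmetric partitions `ε_k(λ)`, as multisets of parts,
for `λ` a partition of `n` of length at least `k`. -/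
def IP (k n : ℕ) : Finset (Multiset ℕ) :=
  ((Finset.univ : Finset (Nat.Partition n)).filter fun p => k ≤ Multiset.card p.parts).image
    fun p => e k p.parts

/-- number of `d`-regular elements of `IP k n` -/
def r (d k n : ℕ) : ℕ := ((IP k n).filter fun m => ∀ x ∈ m, ¬ d ∣ x).card

/-- power sums -/
def ps (j : ℕ) (s : Multiset ℕ) : ℕ := (s.map fun x => x ^ j).sum

theorem e_two_cons (a : ℕ) (s : Multiset ℕ) : e 2 (a ::ₘ s) = e 2 s + s.map (fun x => a * x) := by
  unfold e
  rw [Multiset.powersetCard_cons, Multiset.map_add, Multiset.map_map, Multiset.powersetCard_one,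
    Multiset.map_map]
  congr 1
  apply Multiset.map_congr rfl
  intro x _
  simp

theorem ps_sq (j : ℕ) (s : Multiset ℕ) : ps j s ^ 2 = ps (2 * j) s + 2 * ps j (e 2 s) := by
  induction s using Multiset.induction_on with
  | empty =>
    have h0 : e 2 (0 : Multiset ℕ) = 0 := by
      unfold e
      rw [Multiset.powersetCard_eq_empty 2 (by simp)]
      simp
    rw [h0]
    simp [ps]
  | cons a s ih =>
    have h1 : ps j (e 2 (a ::ₘ s)) = ps j (e 2 s) + a ^ j * ps j s := by
      rw [e_two_cons]
      unfold ps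
      rw [Multiset.map_add, Multiset.sum_add, Multiset.map_map, ← Multiset.sum_map_mul_left]
      congr 2
      apply Multiset.map_congr rfl
      intro x _
      simp [mul_pow]
    have h2 : ∀ i, ps i (a ::ₘ s) = a ^ i + ps i s := by
      intro i
      simp [ps]
    rw [h1, h2, h2]
    have h3 : a ^ (2 * j) = (a ^ j) ^ 2 := by rw [← pow_mul, mul_comm]
    rw [h3]
    linear_combination ih

theorem ps_two_pow {s t : Multiset ℕ} (h1 : s.sum = t.sum) (h2 : e 2 s = e 2 t) (j : ℕ) :
    ps (2 ^ j) s = ps (2 ^ j) t := by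
  induction j with
  | zero => simpa [ps] using h1
  | succ j ih =>
    have e1 := ps_sq (2 ^ j) s
    have e2 := ps_sq (2 ^ j) t
    rw [ih, h2, ← pow_succ'] at e1
    rw [← pow_succ'] at e2
    omega

theorem bern (m r : ℕ) : m ^ r * (m + r) ≤ m * (m + 1) ^ r := by
  induction r with
  | zero => simp
  | succ r ih =>
    calc m ^ (r + 1) * (m + (r + 1)) = m ^ r * (m * m + m * r + m) := by ring
      _ ≤ m ^ r * (m * m + m * r + m + r) := Nat.mul_le_mul_left _ (by omega)
      _ = (m ^ r * (m + r)) * (m + 1) := by ring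
      _ ≤ (m * (m + 1) ^ r) * (m + 1) := Nat.mul_le_mul_right _ ih
      _ = m * (m + 1) ^ (r + 1) := by ring

theorem growth (m K : ℕ) : ∃ j, K * m ^ (2 ^ j) < (m + 1) ^ (2 ^ j) := by
  rcases Nat.eq_zero_or_pos m with rfl | hm
  · exact ⟨0, by simp⟩
  · refine ⟨K * m, ?_⟩
    set r := 2 ^ (K * m) with hr
    have h1 : K * m < r := Nat.lt_two_pow_self
    have h2 := bern m r
    have h3 : m * (K * m ^ r) < m * (m + 1) ^ r := by
      calc m * (K * m ^ r) = m ^ r * (K * m) := by ring
        _ < m ^ r * (m + r) := Nat.mul_lt_mul_of_pos_left (by omega) (by positivity)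
        _ ≤ _ := h2
    exact Nat.lt_of_mul_lt_mul_left h3

theorem ps_le {s : Multiset ℕ} {M : ℕ} (h : ∀ x ∈ s, x ≤ M) (j : ℕ) :
    ps j s ≤ Multiset.card s * M ^ j := by
  unfold ps
  have := Multiset.sum_le_card_nsmul (s.map fun x => x ^ j) (M ^ j) (by
    intro y hy
    rw [Multiset.mem_map] at hy
    obtain ⟨x, hx, rfl⟩ := hy
    exact Nat.pow_le_pow_left (h x hx) j)
  simpa using this

theorem le_ps {s : Multiset ℕ} {x : ℕ} (hx : x ∈ s) (j : ℕ) : x ^ j ≤ ps j s :=
  Multiset.le_sum_of_mem (Multiset.mem_map_of_mem (fun x => x ^ j) hx)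

/-- if `x` is in `s` then some element of `t` is at least `x` -/
theorem exists_ge {s t : Multiset ℕ} (h : ∀ j, ps (2 ^ j) s = ps (2 ^ j) t) {x : ℕ} (hx : x ∈ s)
    (hx0 : 0 < x) : ∃ y ∈ t, x ≤ y := by
  by_contra hcon
  push Not at hcon
  obtain ⟨m, rfl⟩ : ∃ m, x = m + 1 := ⟨x - 1, by omega⟩
  obtain ⟨j, hj⟩ := growth m (Multiset.card t)
  have h1 := ps_le (s := t) (M := m) (fun y hy => by have := hcon y hy; omega) (2 ^ j)
  have h2 := le_ps hx (2 ^ j)
  rw [h j] at h2
  omega

theorem eq_of_ps : ∀ n : ℕ, ∀ s t : Multiset ℕ, Multiset.card s = n → (∀ x ∈ s, 0 < x) →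
    (∀ x ∈ t, 0 < x) → (∀ j, ps (2 ^ j) s = ps (2 ^ j) t) → s = t := by
  intro n
  induction n with
  | zero =>
    intro s t hs _ ht h
    rw [Multiset.card_eq_zero] at hs
    subst hs
    symm
    rw [Multiset.eq_zero_iff_forall_notMem]
    intro y hy
    have h1 := le_ps hy (2 ^ 0)
    rw [← h 0] at h1
    have := ht y hy
    simp [ps] at h1
    omega
  | succ n ih =>
    intro s t hs hs0 ht0 h
    -- the largest element of s
    have hne : s.toFinset.Nonempty := by
      rw [Multiset.toFinset_nonempty]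
      rintro rfl
      simp at hs
    set M := s.toFinset.max' hne with hM
    have hMs : M ∈ s := by
      have := s.toFinset.max'_mem hne
      rwa [Multiset.mem_toFinset] at this
    have hmax : ∀ x ∈ s, x ≤ M := fun x hx => s.toFinset.le_max' x (by rwa [Multiset.mem_toFinset])
    obtain ⟨y, hy, hMy⟩ := exists_ge h hMs (hs0 M hMs)
    obtain ⟨z, hz, hyz⟩ := exists_ge (fun j => (h j).symm) hy (ht0 y hy)
    have hzM := hmax z hz
    have hyM : y = M := by omega
    subst hyM
    obtain ⟨s', hs'⟩ := Multiset.exists_cons_of_mem hMs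
    obtain ⟨t', ht'⟩ := Multiset.exists_cons_of_mem hy
    rw [hs', ht'] at h ⊢
    rw [hs'] at hs hs0
    rw [ht'] at ht0
    congr 1
    apply ih s' t'
    · simpa using hs
    · exact fun x hx => hs0 x (Multiset.mem_cons_of_mem hx)
    · exact fun x hx => ht0 x (Multiset.mem_cons_of_mem hx)
    · intro j
      have := h j
      simpa [ps] using this

/-- `ε_2` is injective on partitions of `n` -/
theorem e_two_injective {n : ℕ} (p q : Nat.Partition n) (h : e 2 p.parts = e 2 q.parts) :
    p = q := by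
  apply Nat.Partition.ext
  apply eq_of_ps _ _ _ rfl (fun x hx => p.parts_pos hx) (fun x hx => q.parts_pos hx)
  exact ps_two_pow (by rw [p.parts_sum, q.parts_sum]) h

theorem e_one (s : Multiset ℕ) : e 1 s = s := by
  unfold e
  rw [Multiset.powersetCard_one, Multiset.map_map]
  simp

theorem mem_e_two {s : Multiset ℕ} {z : ℕ} : z ∈ e 2 s ↔ ∃ t ≤ s, Multiset.card t = 2 ∧ t.prod = z := by
  unfold e
  simp only [Multiset.mem_map, Multiset.mem_powersetCard, and_assoc]

theorem regular_iff {p : ℕ} (hp : p.Prime) {s : Multiset ℕ} (hs : 2 ≤ Multiset.card s) :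
    (∀ x ∈ e 2 s, ¬ p ∣ x) ↔ ∀ x ∈ s, ¬ p ∣ x := by
  constructor
  · intro h x hx hpx
    obtain ⟨s', rfl⟩ := Multiset.exists_cons_of_mem hx
    rw [Multiset.card_cons] at hs
    obtain ⟨y, hy⟩ := Multiset.card_pos_iff_exists_mem.mp (show 0 < Multiset.card s' by omega)
    obtain ⟨s'', rfl⟩ := Multiset.exists_cons_of_mem hy
    apply h (x * y)
    · rw [mem_e_two]
      refine ⟨x ::ₘ y ::ₘ 0, ?_, by simp, by simp⟩
      exact Multiset.cons_le_cons x (Multiset.cons_le_cons y (Multiset.zero_le _))
    · exact dvd_mul_of_dvd_left hpx y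
  · intro h z hz
    rw [mem_e_two] at hz
    obtain ⟨t, hts, htc, rfl⟩ := hz
    obtain ⟨x, y, rfl⟩ := Multiset.card_eq_two.mp htc
    rw [Multiset.prod_pair, hp.dvd_mul]
    rintro (h1 | h1)
    · exact h x (Multiset.mem_of_le hts (by simp)) h1
    · exact h y (Multiset.mem_of_le hts (by simp)) h1

theorem r_one (p n : ℕ) : r p 1 n = ((Finset.univ : Finset (Nat.Partition n)).filter fun q =>
    1 ≤ Multiset.card q.parts ∧ ∀ x ∈ q.parts, ¬ p ∣ x).card := by
  unfold r IP
  rw [Finset.filter_image, Finset.card_image_of_injOn, Finset.filter_filter]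
  · simp only [e_one]
  · intro q _ q' _ h
    simp only [e_one] at h
    exact Nat.Partition.ext h

theorem r_two (p n : ℕ) (hp : p.Prime) :
    r p 2 n = ((Finset.univ : Finset (Nat.Partition n)).filter fun q =>
      2 ≤ Multiset.card q.parts ∧ ∀ x ∈ q.parts, ¬ p ∣ x).card := by
  unfold r IP
  rw [Finset.filter_image, Finset.card_image_of_injOn, Finset.filter_filter]
  · congr 1
    apply Finset.filter_congr
    intro q _
    constructor
    · rintro ⟨h1, h2⟩
      exact ⟨h1, (regular_iff hp h1).mp h2⟩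
    · rintro ⟨h1, h2⟩
      exact ⟨h1, (regular_iff hp h1).mpr h2⟩
  · intro q _ q' _ h
    exact e_two_injective q q' h

/-- For every prime `p` and every `n ≥ 0`, `r_{p,1}(n) - r_{p,2}(n)` is `0` if `p ∣ n` and `1`
otherwise.  Moreover `ε_2` is injective on the partitions of `n` (of length at least `2`). -/
theorem result :
    (∀ p n : ℕ, p.Prime → (r p 1 n : ℤ) - (r p 2 n : ℤ) = if p ∣ n then 0 else 1) ∧
    (∀ n : ℕ, ∀ p q : Nat.Partition n, 2 ≤ Multiset.card p.parts → 2 ≤ Multiset.card q.parts →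
      e 2 p.parts = e 2 q.parts → p = q) := by
  refine ⟨?_, fun n p q _ _ h => e_two_injective p q h⟩
  intro p n hp
  rw [r_one, r_two p n hp]
  have hsplit : ((Finset.univ : Finset (Nat.Partition n)).filter fun q =>
      1 ≤ Multiset.card q.parts ∧ ∀ x ∈ q.parts, ¬ p ∣ x) =
      ((Finset.univ : Finset (Nat.Partition n)).filter fun q =>
        2 ≤ Multiset.card q.parts ∧ ∀ x ∈ q.parts, ¬ p ∣ x) ∪
      ((Finset.univ : Finset (Nat.Partition n)).filter fun q =>
        Multiset.card q.parts = 1 ∧ ∀ x ∈ q.parts, ¬ p ∣ x) := by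
    ext q
    simp only [mem_filter, mem_univ, true_and, mem_union]
    constructor
    · rintro ⟨h1, h2⟩
      rcases Nat.lt_or_ge 1 (Multiset.card q.parts) with h | h
      · exact Or.inl ⟨h, h2⟩
      · exact Or.inr ⟨by omega, h2⟩
    · rintro (⟨h1, h2⟩ | ⟨h1, h2⟩)
      · exact ⟨by omega, h2⟩
      · exact ⟨by omega, h2⟩
  have hdisj : Disjoint ((Finset.univ : Finset (Nat.Partition n)).filter fun q =>
        2 ≤ Multiset.card q.parts ∧ ∀ x ∈ q.parts, ¬ p ∣ x)
      ((Finset.univ : Finset (Nat.Partition n)).filter fun q =>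
        Multiset.card q.parts = 1 ∧ ∀ x ∈ q.parts, ¬ p ∣ x) := by
    rw [Finset.disjoint_left]
    intro q h1 h2
    rw [mem_filter] at h1 h2
    omega
  rw [hsplit, Finset.card_union_of_disjoint hdisj]
  have hlast : (((Finset.univ : Finset (Nat.Partition n)).filter fun q =>
      Multiset.card q.parts = 1 ∧ ∀ x ∈ q.parts, ¬ p ∣ x).card : ℤ) = if p ∣ n then 0 else 1 := by
    have hform : ∀ q : Nat.Partition n, Multiset.card q.parts = 1 → q.parts = {n} := by
      intro q hq
      obtain ⟨a, ha⟩ := Multiset.card_eq_one.mp hq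
      have := q.parts_sum
      rw [ha, Multiset.sum_singleton] at this
      rw [ha, this]
    split_ifs with hpn
    · rw [Nat.cast_eq_zero, Finset.card_eq_zero, Finset.filter_eq_empty_iff]
      rintro q _ ⟨h1, h2⟩
      apply h2 n _ hpn
      rw [hform q h1]
      simp
    · have hn0 : n ≠ 0 := by rintro rfl; exact hpn (dvd_zero p)
      have : ((Finset.univ : Finset (Nat.Partition n)).filter fun q =>
          Multiset.card q.parts = 1 ∧ ∀ x ∈ q.parts, ¬ p ∣ x) =
          {⟨{n}, by intro i hi; rw [Multiset.mem_singleton] at hi; omega,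
            Multiset.sum_singleton n⟩} := by
        ext q
        simp only [mem_filter, mem_univ, true_and, mem_singleton]
        constructor
        · rintro ⟨h1, _⟩
          exact Nat.Partition.ext (hform q h1)
        · rintro rfl
          refine ⟨Multiset.card_singleton n, ?_⟩
          intro x hx
          rw [Multiset.mem_singleton] at hx
          rw [hx]
          exact hpn
      rw [this, Finset.card_singleton]
      rfl
  push_cast
  rw [hlast]
  ring

end Pool.Agent.Results.MP_e3b57e_co.RegularCount
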